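import Pool.Agent.H705.RO.Stm

/-! # Project RO (helper705), part LOB (helper686) -/

set_option autoImplicit false

namespace Pool.Agent.H686.RO

open Pool.Agent.H705.RO
open MeasureTheory ProbabilityTheory Filter Topology Finset

lemma exp_sub_one_le {y : ℝ} (h0 : 0 ≤ y) (h1 : y ≤ 1) : Real.exp y - 1 ≤ 2 * y := by
  have h := Real.abs_exp_sub_one_le (x := y) (by rw [abs_of_nonneg h0]; exact h1)
  rw [abs_of_nonneg h0] at h
  exact (le_abs_self _).trans h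

lemma exp_neg_le {y : ℝ} (h0 : 0 < y) : Real.exp (-y) ≤ 24 / y ^ 4 := by
  have h := Real.pow_div_factorial_le_exp y h0.le 4
  have e : ((Nat.factorial 4 : ℕ) : ℝ) = 24 := by norm_num [Nat.factorial]
  rw [e] at h
  rw [Real.exp_neg, inv_le_comm₀ (Real.exp_pos y) (by positivity), inv_div]
  exact h

/-- the second term -/
lemma prod_bound {A : ℕ} {g w : ℕ → ℝ} (hw : Win A g w) {N : ℕ} (hN : 1 ≤ N) :
    ∏ n ∈ range N, (1 + 2 * Real.pi / (w n * ((N : ℝ) + 2) ^ (A + 5))) - 1 ≤ 14 / (N : ℝ) ^ 2 := by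
  have hN' : (1 : ℝ) ≤ N := by exact_mod_cast hN
  have hpi := Real.pi_lt_d2
  have hpi0 := Real.pi_pos
  have hN2 : (0 : ℝ) < (N : ℝ) + 2 := by linarith
  have hterm : ∀ n ∈ range N, 1 + 2 * Real.pi / (w n * ((N : ℝ) + 2) ^ (A + 5)) ≤
      Real.exp (7 / ((N : ℝ) + 2) ^ 5) := by
    intro n hn
    have hn' : (n : ℝ) ≤ N := by exact_mod_cast (mem_range.1 hn).le
    have h1 := (hw n).2.1
    have h2 : (0 : ℝ) < ((n : ℝ) + 2) ^ A := by positivity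
    have h3 : ((n : ℝ) + 2) ^ A ≤ ((N : ℝ) + 2) ^ A := pow_le_pow_left₀ (by positivity) (by linarith) A
    have hwpos : 0 < w n := lt_of_lt_of_le (by positivity) h1
    have h4 : 1 ≤ w n * ((N : ℝ) + 2) ^ A := by
      rw [div_le_iff₀ h2] at h1
      calc (1 : ℝ) ≤ w n * ((n : ℝ) + 2) ^ A := h1
        _ ≤ w n * ((N : ℝ) + 2) ^ A := by gcongr
    have h5 : 2 * Real.pi / (w n * ((N : ℝ) + 2) ^ (A + 5)) ≤ 7 / ((N : ℝ) + 2) ^ 5 := by
      rw [div_le_div_iff₀ (by positivity) (by positivity), pow_add]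
      have h6 : (0 : ℝ) < ((N : ℝ) + 2) ^ 5 := by positivity
      calc 2 * Real.pi * ((N : ℝ) + 2) ^ 5 ≤ 7 * ((N : ℝ) + 2) ^ 5 := by gcongr; linarith
        _ = 7 * (1 * ((N : ℝ) + 2) ^ 5) := by ring
        _ ≤ 7 * ((w n * ((N : ℝ) + 2) ^ A) * ((N : ℝ) + 2) ^ 5) := by gcongr
        _ = 7 * (w n * (((N : ℝ) + 2) ^ A * ((N : ℝ) + 2) ^ 5)) := by ring
    have h7 := Real.add_one_le_exp (7 / ((N : ℝ) + 2) ^ 5)
    linarith
  have hprod : ∏ n ∈ range N, (1 + 2 * Real.pi / (w n * ((N : ℝ) + 2) ^ (A + 5))) ≤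
      Real.exp (7 / ((N : ℝ) + 2) ^ 4) := by
    calc ∏ n ∈ range N, (1 + 2 * Real.pi / (w n * ((N : ℝ) + 2) ^ (A + 5)))
        ≤ ∏ n ∈ range N, Real.exp (7 / ((N : ℝ) + 2) ^ 5) := by
          refine prod_le_prod (fun n _ => ?_) hterm
          have h1 := (hw n).2.1
          have hwpos : 0 < w n := lt_of_lt_of_le (by positivity) h1
          positivity
      _ = Real.exp (N * (7 / ((N : ℝ) + 2) ^ 5)) := by
          rw [prod_const, card_range, ← Real.exp_nat_mul]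
      _ ≤ Real.exp (7 / ((N : ℝ) + 2) ^ 4) := by
          apply Real.exp_le_exp.2
          rw [mul_div_assoc', div_le_div_iff₀ (by positivity) (by positivity)]
          have h6 : (0 : ℝ) < ((N : ℝ) + 2) ^ 4 := by positivity
          calc (N : ℝ) * 7 * ((N : ℝ) + 2) ^ 4 ≤ ((N : ℝ) + 2) * 7 * ((N : ℝ) + 2) ^ 4 := by
                gcongr
                linarith
            _ = 7 * ((N : ℝ) + 2) ^ 5 := by ring
  have h8 : (7 : ℝ) / ((N : ℝ) + 2) ^ 4 ≤ 7 / (N : ℝ) ^ 2 := by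
    apply div_le_div_of_nonneg_left (by norm_num) (by positivity)
    calc (N : ℝ) ^ 2 ≤ ((N : ℝ) + 2) ^ 2 := by gcongr; linarith
      _ ≤ ((N : ℝ) + 2) ^ 4 := pow_le_pow_right₀ (by linarith) (by norm_num)
  have h9 : (7 : ℝ) / ((N : ℝ) + 2) ^ 4 ≤ 1 := by
    rw [div_le_one (by positivity)]
    calc (7 : ℝ) ≤ 3 ^ 4 := by norm_num
      _ ≤ ((N : ℝ) + 2) ^ 4 := by gcongr; linarith
  have h10 := exp_sub_one_le (y := 7 / ((N : ℝ) + 2) ^ 4) (by positivity) h9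
  have h11 : 2 * (7 / (N : ℝ) ^ 2) = 14 / (N : ℝ) ^ 2 := by ring
  linarith

/-- the third term -/
lemma exp_bound {C : ℝ} (hC : 1 ≤ C) {N : ℕ} (hN : 1 ≤ N) :
    2 * Real.exp (-(1 / (2 * (C * (N : ℝ) ^ (-1 / 2 : ℝ))))) ≤ 768 * C ^ 4 / (N : ℝ) ^ 2 := by
  have hN' : (1 : ℝ) ≤ N := by exact_mod_cast hN
  have hN0 : (0 : ℝ) < N := by linarith
  have hx : (0 : ℝ) < (N : ℝ) ^ (-1 / 2 : ℝ) := Real.rpow_pos_of_pos hN0 _
  have h1 := exp_neg_le (y := 1 / (2 * (C * (N : ℝ) ^ (-1 / 2 : ℝ)))) (by positivity)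
  have h2 : ((N : ℝ) ^ (-1 / 2 : ℝ)) ^ 4 = 1 / (N : ℝ) ^ 2 := by
    rw [← Real.rpow_natCast, ← Real.rpow_mul hN0.le]
    rw [show (-1 / 2 : ℝ) * ((4 : ℕ) : ℝ) = -((2 : ℕ) : ℝ) by norm_num, Real.rpow_neg hN0.le,
      Real.rpow_natCast, one_div]
  have h3 : 24 / (1 / (2 * (C * (N : ℝ) ^ (-1 / 2 : ℝ)))) ^ 4 = 384 * C ^ 4 / (N : ℝ) ^ 2 := by
    rw [div_pow, one_pow, div_div_eq_mul_div, div_one, mul_pow, mul_pow, h2]
    ring
  rw [h3] at h1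
  calc 2 * Real.exp (-(1 / (2 * (C * (N : ℝ) ^ (-1 / 2 : ℝ))))) ≤ 2 * (384 * C ^ 4 / (N : ℝ) ^ 2) := by
        linarith
    _ = 768 * C ^ 4 / (N : ℝ) ^ 2 := by ring

/-- growth -/
lemma ev_growth (A : ℕ) : ∀ᶠ N : ℕ in atTop,
    ((N : ℝ) + 2) ^ (A + 5) * ((N : ℝ) ^ 3 + 1) ≤ Real.exp N := by
  have h1 : Tendsto (fun N : ℕ => (N : ℝ) + 2) atTop atTop :=
    tendsto_atTop_add_const_right _ _ tendsto_natCast_atTop_atTop
  have h2 := (Real.tendsto_exp_div_pow_atTop (A + 8)).comp h1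
  filter_upwards [h2.eventually_ge_atTop (Real.exp 2)] with N hN
  simp only [Function.comp_apply] at hN
  have hN2 : (0 : ℝ) < ((N : ℝ) + 2) ^ (A + 8) := by positivity
  rw [le_div_iff₀ hN2, Real.exp_add, mul_comm (Real.exp N)] at hN
  have h3 : ((N : ℝ) + 2) ^ (A + 8) ≤ Real.exp N := le_of_mul_le_mul_left hN (Real.exp_pos 2)
  refine le_trans ?_ h3
  have h4 : (N : ℝ) ^ 3 + 1 ≤ ((N : ℝ) + 2) ^ 3 := by
    have : (0 : ℝ) ≤ N := Nat.cast_nonneg N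
    nlinarith [this, sq_nonneg (N : ℝ)]
  calc ((N : ℝ) + 2) ^ (A + 5) * ((N : ℝ) ^ 3 + 1) ≤ ((N : ℝ) + 2) ^ (A + 5) * ((N : ℝ) + 2) ^ 3 := by
        gcongr
    _ = ((N : ℝ) + 2) ^ (A + 8) := by rw [← pow_add]

theorem T_LOB (hLOP : P_LOP) : P_LOB := by
  classical
  intro Ω _ P X hX a β g w s A ha hw δ hδ hδ1
  have := hX.prob
  obtain ⟨ha0, ha1⟩ := ha
  obtain ⟨C0, hC0⟩ := ha1 (1 / 2) (by norm_num)
  set C := max C0 1 with hCdef
  have hC1 : 1 ≤ C := le_max_right _ _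
  have hwpos : ∀ n, 0 < w n := fun n => lt_of_lt_of_le (by positivity) (hw n).2.1
  let Δ : ℕ → ℝ := fun N => ((N : ℝ) + 2) ^ (A + 5)
  let K : ℕ → ℕ := fun N => ⌈(N : ℝ) ^ 3 / δ ^ N⌉₊
  let Bad : ℕ → Set Ω := fun N => {ω | ∀ k < K N,
    (∀ n < N, nr δ (arg g w s (fun n => X n ω) n (Δ N * ((k : ℝ) + 1)))) →
      1 ≤ |∑ n ∈ Ico N (N ^ 4), wave a β g w (fun n => X n ω) n (Δ N * ((k : ℝ) + 1))|}
  let Bd : ℕ → Set Ω := fun N => if 1 ≤ N then Bad N else ∅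
  have hbound : ∀ N, P (Bd N) ≤ ENNReal.ofReal ((15 + 768 * C ^ 4) * (1 / (N : ℝ) ^ 2)) := by
    intro N
    by_cases hN : 1 ≤ N
    · have hN' : (1 : ℝ) ≤ N := by exact_mod_cast hN
      have hδN : 0 < δ ^ N := pow_pos hδ N
      have hK1 : 1 ≤ K N := Nat.one_le_ceil_iff.2 (by positivity)
      have hv : ∑ n ∈ Ico N (N ^ 4), a n ^ 2 ≤ C * (N : ℝ) ^ (-1 / 2 : ℝ) := by
        have h1 := hC0 N (N ^ 4) hN (Nat.le_self_pow (by norm_num) N)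
        have h2 : (-1 + 1 / 2 : ℝ) = -1 / 2 := by norm_num
        rw [h2] at h1
        have h3 : (0 : ℝ) ≤ (N : ℝ) ^ (-1 / 2 : ℝ) := by positivity
        exact h1.trans (mul_le_mul_of_nonneg_right (le_max_left _ _) h3)
      have h1 := hLOP Ω P X hX a β g w s ha0 hwpos δ (Δ N) (C * (N : ℝ) ^ (-1 / 2 : ℝ)) hδ hδ1.le
        (by positivity) (by positivity) N (N ^ 4) (K N) (Nat.le_self_pow (by norm_num) N) hK1 hv
      have e : Bd N = Bad N := if_pos hN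
      rw [e]
      refine h1.trans (ENNReal.ofReal_le_ofReal ?_)
      have t1 : 1 / ((K N : ℝ) * δ ^ N) ≤ 1 / (N : ℝ) ^ 2 := by
        apply div_le_div_of_nonneg_left zero_le_one (by positivity)
        have h2 : (N : ℝ) ^ 3 / δ ^ N ≤ K N := Nat.le_ceil _
        rw [div_le_iff₀ hδN] at h2
        refine le_trans ?_ h2
        exact pow_le_pow_right₀ hN' (by norm_num)
      have t2 := prod_bound hw hN
      have t3 := exp_bound hC1 hN
      have e2 : (15 + 768 * C ^ 4) * (1 / (N : ℝ) ^ 2) =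
          1 / (N : ℝ) ^ 2 + 14 / (N : ℝ) ^ 2 + 768 * C ^ 4 / (N : ℝ) ^ 2 := by ring
      rw [e2]
      exact add_le_add (add_le_add t1 t2) t3
    · have e : Bd N = ∅ := if_neg hN
      rw [e, measure_empty]
      exact bot_le
  have hsum : ∑' N, P (Bd N) ≠ ⊤ := by
    have h1 : Summable fun N : ℕ => (15 + 768 * C ^ 4) * (1 / (N : ℝ) ^ 2) :=
      (Real.summable_one_div_nat_pow.2 (by norm_num)).mul_left _
    exact ne_top_of_le_ne_top h1.tsum_ofReal_ne_top (ENNReal.tsum_le_tsum hbound)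
  filter_upwards [ae_eventually_notMem hsum] with ω hω
  obtain ⟨N₁, hN₁⟩ := eventually_atTop.1 (hω.and ((ev_growth A).and (eventually_ge_atTop 1)))
  refine ⟨N₁, fun N hN => ?_⟩
  obtain ⟨h1, h2, h3⟩ := hN₁ N hN
  have e : Bd N = Bad N := if_pos h3
  rw [e] at h1
  simp only [Bad, Set.mem_ofPred_eq] at h1
  push Not at h1
  obtain ⟨k, hk, hk1, hk2⟩ := h1
  have hN' : (1 : ℝ) ≤ N := by exact_mod_cast h3
  have hδN : 0 < δ ^ N := pow_pos hδ N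
  have hΔ : (N : ℝ) ≤ Δ N := by
    have h4 : (N : ℝ) + 2 ≤ ((N : ℝ) + 2) ^ (A + 5) := le_self_pow₀ (by linarith) (by omega)
    show (N : ℝ) ≤ ((N : ℝ) + 2) ^ (A + 5)
    linarith
  refine ⟨Δ N * ((k : ℝ) + 1), ?_, ?_, hk1, hk2.le⟩
  · have h5 : (0 : ℝ) ≤ k := Nat.cast_nonneg k
    nlinarith
  · have h5 : (k : ℝ) + 1 ≤ K N := by exact_mod_cast hk
    have h6 : (K N : ℝ) ≤ (N : ℝ) ^ 3 / δ ^ N + 1 := (Nat.ceil_lt_add_one (by positivity)).le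
    have h7 : (N : ℝ) ^ 3 / δ ^ N + 1 ≤ ((N : ℝ) ^ 3 + 1) / δ ^ N := by
      rw [add_div]
      have h8 : 1 ≤ 1 / δ ^ N := by
        rw [le_div_iff₀ hδN, one_mul]
        exact pow_le_one₀ hδ.le hδ1.le
      linarith
    have h9 : Real.exp (N * (Real.log (1 / δ) + 1)) = Real.exp N * (1 / δ ^ N) := by
      rw [mul_add, mul_one, Real.exp_add, ← Real.log_pow, Real.exp_log (by positivity), div_pow, one_pow,
        mul_comm]
    rw [h9]
    have hΔ0 : 0 ≤ Δ N := by linarith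
    calc Δ N * ((k : ℝ) + 1) ≤ Δ N * (((N : ℝ) ^ 3 + 1) / δ ^ N) :=
          mul_le_mul_of_nonneg_left (h5.trans (h6.trans h7)) hΔ0
      _ = (((N : ℝ) + 2) ^ (A + 5) * ((N : ℝ) ^ 3 + 1)) * (1 / δ ^ N) := by
          show ((N : ℝ) + 2) ^ (A + 5) * (((N : ℝ) ^ 3 + 1) / δ ^ N) = _
          ring
      _ ≤ Real.exp N * (1 / δ ^ N) := by gcongr

end Pool.Agent.H686.RO
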